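import Pool.Agent.W307.LS.Stm

/-!
# Local triviality from a point whose abscissa is in the class of `d`
-/

set_option autoImplicit false
set_option maxHeartbeats 1000000

namespace Pool.Agent.W975.LS.LT2

open WeierstrassCurve Pool.Agent.W262.SH Pool.Agent.W307.LS

open scoped Classical

theorem act_some (W : WeierstrassCurve ℚ) {F L : Type} [Field F] [Field L] [Algebra ℚ F]
    [Algebra ℚ L] (φ : F →ₐ[ℚ] L)
    {x y : F} (h : (W.baseChange F).toAffine.Nonsingular x y) :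
    ∃ h', act W φ (.some x y h) = .some (φ x) (φ y) h' :=
  ⟨_, WeierstrassCurve.Affine.Point.map_some φ h⟩

theorem some_congr {F : Type} [Field F] {W' : WeierstrassCurve F} {x y x' y' : F}
    (hx : x = x') (hy : y = y') (h : W'.toAffine.Nonsingular x y)
    (h' : W'.toAffine.Nonsingular x' y') :
    (Affine.Point.some x y h : W'.toAffine.Point) = Affine.Point.some x' y' h' := by
  subst hx
  subst hy
  rfl

theorem add_T0 {L : Type} [Field L] (W : WeierstrassCurve L) (h1 : W.a₁ = 0) (h3 : W.a₃ = 0)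
    {x₁ x₂ R : L} (hx : x₁ ≠ 0) (hs : x₁ + x₂ = R ^ 2 - W.a₂)
    (n1 : W.toAffine.Nonsingular x₁ (R * x₁)) (n0 : W.toAffine.Nonsingular 0 0)
    (n2 : W.toAffine.Nonsingular x₂ (-(R * x₂))) :
    (Affine.Point.some _ _ n1 : W.toAffine.Point) + Affine.Point.some _ _ n0 =
      Affine.Point.some _ _ n2 := by
  rw [Affine.Point.add_of_X_ne hx]
  have hsl : W.toAffine.slope x₁ 0 (R * x₁) 0 = R := by
    rw [Affine.slope_of_X_ne hx, sub_zero, sub_zero, mul_div_cancel_right₀ _ hx]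
  have e1 : W.toAffine.addX x₁ 0 (W.toAffine.slope x₁ 0 (R * x₁) 0) = x₂ := by
    rw [hsl]
    unfold Affine.addX
    rw [h1]
    linear_combination -hs
  apply some_congr
  · exact e1
  · unfold Affine.addY Affine.negAddY Affine.negY
    rw [e1, hsl, h1, h3]
    ring

theorem a1 (a b : ℤ) (L : Type) [Field L] [Algebra ℚ L] : ((F4 a b).baseChange L).a₁ = 0 := by
  simp [F4]

theorem a3 (a b : ℤ) (L : Type) [Field L] [Algebra ℚ L] : ((F4 a b).baseChange L).a₃ = 0 := by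
  simp [F4]

theorem a6 (a b : ℤ) (L : Type) [Field L] [Algebra ℚ L] : ((F4 a b).baseChange L).a₆ = 0 := by
  simp [F4]

theorem a2 (a b : ℤ) (L : Type) [Field L] [Algebra ℚ L] :
    ((F4 a b).baseChange L).a₂ = 2 * ((a : L) + b) := by
  show algebraMap ℚ L (2 * ((a : ℚ) + b)) = _
  simp only [map_mul, map_add, map_ofNat, map_intCast]

theorem a4 (a b : ℤ) (L : Type) [Field L] [Algebra ℚ L] :
    ((F4 a b).baseChange L).a₄ = ((a : L) - b) ^ 2 := by
  show algebraMap ℚ L (((a : ℚ) - b) ^ 2) = _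
  simp only [map_pow, map_sub, map_intCast]

theorem ns0 {a b : ℤ} (hab : a ≠ b) (L : Type) [Field L] [Algebra ℚ L] :
    ((F4 a b).baseChange L).toAffine.Nonsingular 0 0 := by
  have hc : CharZero L := algebraRat.charZero L
  rw [Affine.nonsingular_iff', Affine.equation_iff]
  rw [a1, a3, a6, a2, a4]
  refine ⟨by ring, Or.inl ?_⟩
  have h : ((a : L) - b) ≠ 0 := by
    rw [sub_ne_zero]
    exact_mod_cast hab
  have h2 : ((a : L) - b) ^ 2 ≠ 0 := pow_ne_zero 2 h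
  intro h3
  apply h2
  linear_combination -h3

theorem nsR {a b : ℤ} {L : Type} [Field L] [Algebra ℚ L] {x₁ x₂ R : L} (hx : x₁ ≠ 0)
    (hR : R ≠ 0) (hs : x₁ + x₂ = R ^ 2 - 2 * ((a : L) + b)) (hp : x₁ * x₂ = ((a : L) - b) ^ 2) :
    ((F4 a b).baseChange L).toAffine.Nonsingular x₁ (R * x₁) := by
  have hc : CharZero L := algebraRat.charZero L
  rw [Affine.nonsingular_iff', Affine.equation_iff]
  rw [a1, a3, a6, a2, a4]
  refine ⟨?_, Or.inr ?_⟩
  · linear_combination x₁ ^ 2 * (-hs) + x₁ * hp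
  · have h : 2 * (R * x₁) ≠ 0 := mul_ne_zero two_ne_zero (mul_ne_zero hR hx)
    intro h2
    apply h
    linear_combination h2

theorem core {a b : ℤ} (hab : a ≠ b) (Ω : Type) [Field Ω] [Algebra ℚ Ω] {R Y : Ω} (hR0 : R ≠ 0)
    (hYX : Y ^ 2 = R ^ 2 * (R ^ 2 - 4 * a) * (R ^ 2 - 4 * b)) :
    ∃ P : Pt (F4 a b) Ω, ∀ τ : Ω →ₐ[ℚ] Ω, τ Y = Y →
      (τ R = R → act (F4 a b) τ P = P) ∧
      (τ R = -R → act (F4 a b) τ P = P + Affine.Point.some 0 0 (ns0 hab Ω)) := by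
  have hc : CharZero Ω := algebraRat.charZero _
  obtain ⟨Q, hQ⟩ : ∃ Q : Ω, Q = Y / R := ⟨_, rfl⟩
  have hQ2 : Q ^ 2 = (R ^ 2 - 4 * a) * (R ^ 2 - 4 * b) := by
    rw [hQ, div_pow, hYX, mul_assoc, mul_div_cancel_left₀ _ (pow_ne_zero 2 hR0)]
  obtain ⟨x₁, hx1⟩ : ∃ x₁ : Ω, x₁ = (R ^ 2 - 2 * ((a : Ω) + b) - Q) / 2 := ⟨_, rfl⟩
  obtain ⟨x₂, hx2⟩ : ∃ x₂ : Ω, x₂ = (R ^ 2 - 2 * ((a : Ω) + b) + Q) / 2 := ⟨_, rfl⟩
  have hsum : x₁ + x₂ = R ^ 2 - 2 * ((a : Ω) + b) := by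
    rw [hx1, hx2]
    ring
  have hprod : x₁ * x₂ = ((a : Ω) - b) ^ 2 := by
    have h : x₁ * x₂ = ((R ^ 2 - 2 * ((a : Ω) + b)) ^ 2 - Q ^ 2) / 4 := by
      rw [hx1, hx2]
      ring
    rw [h, hQ2]
    ring
  have hc0 : ((a : Ω) - b) ^ 2 ≠ 0 := by
    apply pow_ne_zero
    rw [sub_ne_zero]
    exact_mod_cast hab
  have hx10 : x₁ ≠ 0 := by
    intro h
    rw [h, zero_mul] at hprod
    exact hc0 hprod.symm
  have hx20 : x₂ ≠ 0 := by
    intro h
    rw [h, mul_zero] at hprod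
    exact hc0 hprod.symm
  have n1 : ((F4 a b).baseChange Ω).toAffine.Nonsingular x₁ (R * x₁) :=
    nsR hx10 hR0 hsum hprod
  have n2 : ((F4 a b).baseChange Ω).toAffine.Nonsingular x₂ (-(R * x₂)) := by
    have h := nsR (a := a) (b := b) (x₁ := x₂) (x₂ := x₁) (R := -R) hx20 (neg_ne_zero.2 hR0)
      (by rw [neg_sq, ← hsum]; ring) (by rw [← hprod]; ring)
    rwa [neg_mul] at h
  refine ⟨Affine.Point.some x₁ (R * x₁) n1, ?_⟩
  intro τ hτY
  obtain ⟨h', hact⟩ := act_some (F4 a b) τ n1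
  rw [hact]
  constructor
  · intro h2
    have h3 : τ Q = Q := by rw [hQ, map_div₀, hτY, h2]
    have h4 : τ x₁ = x₁ := by
      rw [hx1]
      simp only [map_div₀, map_sub, map_mul, map_add, map_intCast, map_pow, map_ofNat, h2, h3]
    apply some_congr
    · exact h4
    · rw [map_mul, h2, h4]
  · intro h2
    have h3 : τ Q = -Q := by rw [hQ, map_div₀, hτY, h2, div_neg]
    have h4 : τ x₁ = x₂ := by
      rw [hx1, hx2]
      simp only [map_div₀, map_sub, map_mul, map_add, map_intCast, map_pow, map_ofNat, h2, h3]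
      ring
    rw [add_T0 ((F4 a b).baseChange Ω) (a1 a b Ω) (a3 a b Ω) hx10
      (by rw [a2]; exact hsum) n1 (ns0 hab Ω) n2]
    apply some_congr
    · exact h4
    · rw [map_mul, h2, h4]
      ring

theorem main {a b : ℤ} (hab : a ≠ b) {K Ω : Type} [Field K] [Algebra ℚ K] [Field Ω]
    [Algebra ℚ Ω] [Algebra K Ω] {d : ℤ} {s : QB} {x y k : K} (hd : d ≠ 0)
    (hs : s ^ 2 = (d : QB)) (hk : k ≠ 0) (hx : x = (d : K) * k ^ 2)
    (hxy : y ^ 2 = x * (x - 4 * a) * (x - 4 * b)) (ι : QB →ₐ[ℚ] Ω) :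
    ∃ P : Pt (F4 a b) Ω, ∀ (τ : Ω →ₐ[ℚ] Ω) (σ : QB ≃ₐ[ℚ] QB),
      (∀ z : K, τ (algebraMap K Ω z) = algebraMap K Ω z) → (∀ z : QB, τ (ι z) = ι (σ z)) →
      act (F4 a b) ι (cs a b s σ) = act (F4 a b) τ P - P := by
  have hc : CharZero Ω := algebraRat.charZero _
  have hD2 : (ι s) ^ 2 = (d : Ω) := by
    rw [← map_pow, hs, map_intCast]
  have hd0 : (d : Ω) ≠ 0 := by exact_mod_cast hd
  have hD0 : ι s ≠ 0 := by
    intro h
    rw [h] at hD2
    apply hd0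
    rw [← hD2]
    ring
  have hkk0 : algebraMap K Ω k ≠ 0 := (map_ne_zero _).2 hk
  have hXR : algebraMap K Ω x = (algebraMap K Ω k * ι s) ^ 2 := by
    rw [hx, map_mul, map_intCast, map_pow, mul_pow, hD2]
    ring
  have hYX : (algebraMap K Ω y) ^ 2 = (algebraMap K Ω k * ι s) ^ 2 *
      ((algebraMap K Ω k * ι s) ^ 2 - 4 * a) * ((algebraMap K Ω k * ι s) ^ 2 - 4 * b) := by
    rw [← hXR, ← map_pow, hxy]
    simp only [map_mul, map_sub, map_intCast, map_ofNat]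
  obtain ⟨P, hP⟩ := core hab Ω (mul_ne_zero hkk0 hD0) hYX
  refine ⟨P, ?_⟩
  intro τ σ hτK hτι
  obtain ⟨hP1, hP2⟩ := hP τ (hτK y)
  by_cases hσ : σ s = s
  · have h5 : cs a b s σ = 0 := by
      unfold cs
      rw [if_pos hσ]
    rw [h5, map_zero, eq_comm, sub_eq_zero]
    apply hP1
    rw [map_mul, hτK, hτι, hσ]
  · have hσ2 : σ s = -s := by
      have h1 : (σ s) ^ 2 = s ^ 2 := by
        rw [← map_pow, hs, map_intCast]
      rcases sq_eq_sq_iff_eq_or_eq_neg.1 h1 with h2 | h2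
      · exact absurd h2 hσ
      · exact h2
    have h5 : cs a b s σ = Affine.Point.some 0 0 (ns0 hab QB) := by
      unfold cs T0
      rw [if_neg hσ, dif_pos (ns0 hab QB)]
    obtain ⟨h'', hact2⟩ := act_some (F4 a b) ι (ns0 hab QB)
    have h6 : (Affine.Point.some (ι 0) (ι 0) h'' : Pt (F4 a b) Ω) =
        Affine.Point.some 0 0 (ns0 hab Ω) := some_congr (map_zero ι) (map_zero ι) _ _
    rw [h5, hact2, eq_sub_iff_add_eq, add_comm, h6]
    symm
    apply hP2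
    rw [map_mul, hτK, hτι, hσ2, map_neg, mul_neg]

theorem lt2 : Pool.Agent.W307.LS.LT2 := by
  intro a b _ _ hab K _ _ d s x y k hd hs hk hx hxy ι
  obtain ⟨P, hP⟩ := main hab hd hs hk hx hxy ι
  refine ⟨P, ?_⟩
  intro τ σ hcomp
  exact hP (τ.toAlgHom.restrictScalars ℚ) σ (fun z => τ.commutes z)
    (fun z => DFunLike.congr_fun hcomp z)

end Pool.Agent.W975.LS.LT2
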