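import Pool.Agent.W886.LS.Stm0
import Pool.Agent.H620R2.Gauge.S

/-!
# The parity language is in linear space
-/

set_option autoImplicit false
set_option maxHeartbeats 400000

namespace Pool.Agent.W975.LS.PARL

open Pool.Agent.W886.RU Pool.Agent.NPC Pool.Agent.H620R2.Gauge Pool.Agent.W886.LS

variable {A : ℕ → Bool}

theorem of_eq {n : ℕ} {f g : (Fin n → ℕ) → ℕ} (hf : E2 A n f) (h : ∀ v, g v = f v) : E2 A n g := by
  have : g = f := funext h
  rw [this]; exact hf

theorem comp1 {n : ℕ} {g : (Fin 1 → ℕ) → ℕ} {f : (Fin n → ℕ) → ℕ} (hg : E2 A 1 g)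
    (hf : E2 A n f) : E2 A n (fun v => g (fun _ => f v)) :=
  E2.comp (hs := fun _ => f) hg (fun _ => hf)

theorem comp2 {n : ℕ} {g : (Fin 2 → ℕ) → ℕ} {f₁ f₂ : (Fin n → ℕ) → ℕ} (hg : E2 A 2 g)
    (h₁ : E2 A n f₁) (h₂ : E2 A n f₂) : E2 A n (fun v => g ![f₁ v, f₂ v]) := by
  refine of_eq (E2.comp (hs := ![f₁, f₂]) hg ?_) ?_
  · intro i
    fin_cases i
    · exact h₁
    · exact h₂
  · intro v
    congr 1
    funext i
    fin_cases i <;> rfl

theorem succ' {n : ℕ} {f : (Fin n → ℕ) → ℕ} (hf : E2 A n f) : E2 A n (fun v => f v + 1) :=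
  comp1 (g := fun v => v 0 + 1) E2.succ hf

theorem one (n : ℕ) : E2 A n (fun _ => 1) := of_eq (succ' (E2.zero n)) (fun _ => rfl)

theorem add0 : E2 A 2 (fun v => v 0 + v 1) := by
  refine E2.lrec (n := 1) (g := fun v => v 0) (h := fun v => v 0 + 1)
    (b := fun v => (v 0 + 1) * (v 1 + 1)) (E2.proj 0) (succ' (E2.proj 0)) E2.mul ?_ ?_ ?_
  · intro v; nlinarith
  · intro v; simp
  · intro v y; simp; omega

theorem add {n : ℕ} {f g : (Fin n → ℕ) → ℕ} (hf : E2 A n f) (hg : E2 A n g) :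
    E2 A n (fun v => f v + g v) :=
  of_eq (comp2 (g := fun v => v 0 + v 1) add0 hf hg) (fun _ => rfl)

theorem mul0 : E2 A 2 (fun v => v 0 * v 1) := by
  refine E2.lrec (n := 1) (g := fun _ => 0) (h := fun v => v 0 + v 2)
    (b := fun v => (v 0 + 1) * (v 1 + 1)) (E2.zero 1) (add (E2.proj 0) (E2.proj 2)) E2.mul ?_ ?_ ?_
  · intro v; nlinarith
  · intro v; simp
  · intro v y
    show (y + 1) * v 0 = y * v 0 + v 0
    ring

theorem mul {n : ℕ} {f g : (Fin n → ℕ) → ℕ} (hf : E2 A n f) (hg : E2 A n g) :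
    E2 A n (fun v => f v * g v) :=
  of_eq (comp2 (g := fun v => v 0 * v 1) mul0 hf hg) (fun _ => rfl)

theorem pred1 : E2 A 1 (fun v => v 0 - 1) := by
  refine E2.lrec (g := fun v : Fin 0 → ℕ => 0) (h := fun w : Fin 2 → ℕ => w 1)
    (b := fun v : Fin 1 → ℕ => v 0) (E2.zero 0) (E2.proj 1) (E2.proj 0) ?_ ?_ ?_
  · intro v; exact Nat.sub_le _ _
  · intro v; rfl
  · intro v y
    show y + 1 - 1 = y
    rfl

theorem pred {n : ℕ} {f : (Fin n → ℕ) → ℕ} (hf : E2 A n f) : E2 A n (fun v => f v - 1) :=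
  comp1 (g := fun v => v 0 - 1) pred1 hf

theorem sub2 : E2 A 2 (fun v => v 1 - v 0) := by
  refine E2.lrec (g := fun v : Fin 1 → ℕ => v 0) (h := fun w : Fin 3 → ℕ => w 0 - 1)
    (b := fun v : Fin 2 → ℕ => v 1) (E2.proj 0) (pred (E2.proj 0)) (E2.proj 1) ?_ ?_ ?_
  · intro v; exact Nat.sub_le _ _
  · intro v
    show v 0 - 0 = v 0
    rfl
  · intro v y
    show v 0 - (y + 1) = v 0 - y - 1
    omega

theorem sub {n : ℕ} {f g : (Fin n → ℕ) → ℕ} (hf : E2 A n f) (hg : E2 A n g) :
    E2 A n (fun v => f v - g v) :=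
  of_eq (comp2 (g := fun v => v 1 - v 0) sub2 hg hf) (fun _ => rfl)

theorem neg {n : ℕ} {f : (Fin n → ℕ) → ℕ} (hf : E2 A n f) : E2 A n (fun v => 1 - f v) :=
  sub (one n) hf

theorem chi {n : ℕ} {f : (Fin n → ℕ) → ℕ} (hf : E2 A n f) :
    E2 A n (fun v => (A (f v)).toNat) :=
  comp1 (g := fun v => (A (v 0)).toNat) E2.orc hf

/-- the power of two -/
def pw (v : ℕ) : ℕ := 2 ^ Nat.log 2 (v + 1)

theorem pw_zero : pw 0 = 1 := by simp [pw]

theorem pw_pos (v : ℕ) : 1 ≤ pw v := Nat.one_le_two_pow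

theorem pw_le (v : ℕ) : pw v ≤ v + 1 := Nat.pow_log_le_self 2 (by omega)

theorem lt_pw (v : ℕ) : v + 1 < 2 * pw v := by
  have h := Nat.lt_pow_succ_log_self (b := 2) (by norm_num) (v + 1)
  rw [pow_succ] at h
  unfold pw
  omega

theorem pw_succ (y : ℕ) :
    pw (y + 1) = pw y + pw y * (1 - ((y + 1 + 1 - (pw y + pw y)) + (pw y + pw y - (y + 1 + 1)))) := by
  have h1 := pw_le y
  have h2 := lt_pw y
  have h0 : 2 ^ (Nat.log 2 (y + 1) + 1) = pw y + pw y := by rw [pow_succ]; unfold pw; ring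
  have h3 : 2 ^ (Nat.log 2 (y + 1) + 1 + 1) = 2 * (pw y + pw y) := by
    rw [pow_succ, h0]; ring
  have hp := pw_pos y
  by_cases h : y + 1 + 1 = pw y + pw y
  · have e : Nat.log 2 (y + 1 + 1) = Nat.log 2 (y + 1) + 1 := by
      apply Nat.log_eq_of_pow_le_of_lt_pow
      · rw [h0]; omega
      · rw [h3]; omega
    have e2 : pw (y + 1) = pw y + pw y := by
      rw [← h0]
      show 2 ^ Nat.log 2 (y + 1 + 1) = _
      rw [e]
    rw [e2, h]
    simp
  · have e : Nat.log 2 (y + 1 + 1) = Nat.log 2 (y + 1) := by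
      apply Nat.log_eq_of_pow_le_of_lt_pow
      · show pw y ≤ _
        omega
      · rw [h0]; omega
    have e2 : pw (y + 1) = pw y := by
      show 2 ^ Nat.log 2 (y + 1 + 1) = _
      rw [e]; rfl
    have e3 : 1 - ((y + 1 + 1 - (pw y + pw y)) + (pw y + pw y - (y + 1 + 1))) = 0 := by omega
    rw [e2, e3]
    simp

theorem pwE : E2 A 1 (fun v => pw (v 0)) := by
  have ha : E2 A 2 (fun w => w 1 + 1 + 1) := succ' (succ' (E2.proj 1))
  have hb : E2 A 2 (fun w => w 0 + w 0) := add (E2.proj 0) (E2.proj 0)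
  refine E2.lrec (n := 0) (g := fun _ => 1)
    (h := fun w => w 0 + w 0 * (1 - ((w 1 + 1 + 1 - (w 0 + w 0)) + (w 0 + w 0 - (w 1 + 1 + 1)))))
    (b := fun v => v 0 + 1) (one 0) ?_ E2.succ ?_ ?_ ?_
  · exact add (E2.proj 0) (mul (E2.proj 0) (neg (add (sub ha hb) (sub hb ha))))
  · intro v
    exact pw_le _
  · intro v
    exact pw_zero
  · intro v y
    exact pw_succ y

/-- the parity of an initial segment -/
def PF (A : ℕ → Bool) (y x : ℕ) : ℕ :=
  ((Finset.range y).filter (fun w => A ((x + 1) * pw x + w - 1) = true)).card % 2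

theorem PF_succ (y x : ℕ) :
    PF A (y + 1) x = (1 - PF A y x) * (A ((x + 1) * pw x + y - 1)).toNat +
      PF A y x * (1 - (A ((x + 1) * pw x + y - 1)).toNat) := by
  unfold PF
  rw [Finset.range_add_one, Finset.filter_insert]
  have hlt := Nat.mod_lt ((Finset.range y).filter
    (fun w => A ((x + 1) * pw x + w - 1) = true)).card (by norm_num : 0 < 2)
  by_cases h : A ((x + 1) * pw x + y - 1) = true
  · rw [if_pos h, Finset.card_insert_of_notMem (by simp), h]
    simp only [Bool.toNat_true]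
    omega
  · rw [if_neg h]
    have h' : A ((x + 1) * pw x + y - 1) = false := by simpa using h
    rw [h']
    simp

theorem PF0 : E2 A 2 (fun v => PF A (v 0) (v 1)) := by
  refine E2.lrec (n := 1) (g := fun _ => 0)
    (h := fun v => (1 - v 0) * (A ((v 2 + 1) * pw (v 2) + v 1 - 1)).toNat +
      v 0 * (1 - (A ((v 2 + 1) * pw (v 2) + v 1 - 1)).toNat))
    (b := fun _ => 1) (E2.zero 1) ?_ (one 2) ?_ ?_ ?_
  · have hp : E2 A 3 (fun v => pw (v 2)) := comp1 (g := fun v => pw (v 0)) pwE (E2.proj 2)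
    have hc : E2 A 3 (fun v => (A ((v 2 + 1) * pw (v 2) + v 1 - 1)).toNat) :=
      chi (pred (add (mul (succ' (E2.proj 2)) hp) (E2.proj 1)))
    exact add (mul (neg (E2.proj 0)) hc) (mul (E2.proj 0) (neg hc))
  · intro v
    show PF A (v 0) (v 1) ≤ 1
    unfold PF
    omega
  · intro v
    show PF A 0 (v 0) = 0
    simp [PF]
  · intro v y
    exact PF_succ y (v 0)

/-- the number of a string of digits -/
def gv (s : ℕ) (w : List Bool) : ℕ := w.foldl (fun n b => 2 * n + b.toNat) s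

theorem gv_eq (w : List Bool) : ∀ s : ℕ, gv s w = s * 2 ^ w.length + gv 0 w := by
  induction w with
  | nil => intro s; simp [gv]
  | cons b w ih =>
    intro s
    have h1 : gv s (b :: w) = gv (2 * s + b.toNat) w := rfl
    have h2 : gv 0 (b :: w) = gv (2 * 0 + b.toNat) w := rfl
    rw [h1, h2, ih, ih (2 * 0 + b.toNat), List.length_cons, pow_succ]
    ring

theorem sval_app (x w : List Bool) : sval (x ++ w) = sval x * 2 ^ w.length + gv 0 w := by
  have h : sval (x ++ w) = gv (sval x) w := by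
    unfold sval gv
    rw [List.foldl_append]
  rw [h, gv_eq]

theorem sval_gv (w : List Bool) : sval w = 2 ^ w.length + gv 0 w := by
  have h := sval_app [] w
  rw [List.nil_append, sval_nil, one_mul] at h
  exact h

theorem gv_lt (w : List Bool) : gv 0 w < 2 ^ w.length := by
  have h := (sval_bounds w).2
  rw [sval_gv, pow_succ] at h
  omega

theorem sval_inj {w w' : List Bool} (h : sval w = sval w') : w = w' := by
  have h2 : idx w = idx w' := by rw [idx_eq, idx_eq, h]
  rw [← str_idx w, h2, str_idx]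

theorem sval_str (v : ℕ) : sval (str v) = v + 1 := by
  obtain ⟨y, hy, hs⟩ := exists_str v
  rw [hs, hy]

theorem card_eq (A : Oracle) (v : ℕ) :
    ((Finset.range (2 ^ (str v).length)).filter
      (fun j => A (str v ++ bitsOf (str v).length j) = true)).card =
    ((Finset.range (pw v)).filter (fun w => num A ((v + 1) * pw v + w - 1) = true)).card := by
  have hpw : pw v = 2 ^ (str v).length := by rw [length_str]; rfl
  rw [hpw]
  set n := (str v).length with hn
  set φ : ℕ → ℕ := fun j => gv 0 (bitsOf n j) with hφ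
  have hlt : ∀ j, φ j < 2 ^ n := by
    intro j
    have h := gv_lt (bitsOf n j)
    rw [length_bitsOf] at h
    exact h
  have hinj : Set.InjOn φ (Finset.range (2 ^ n) : Finset ℕ) := by
    intro j hj j' hj' h
    rw [Finset.mem_coe, Finset.mem_range] at hj hj'
    have h2 : sval (bitsOf n j) = sval (bitsOf n j') := by
      rw [sval_gv, sval_gv, length_bitsOf, length_bitsOf]
      exact congrArg _ h
    exact bitsOf_inj hj hj' (sval_inj h2)
  have himg : (Finset.range (2 ^ n)).image φ = Finset.range (2 ^ n) := by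
    apply Finset.eq_of_subset_of_card_le
    · intro k hk
      obtain ⟨j, -, rfl⟩ := Finset.mem_image.1 hk
      exact Finset.mem_range.2 (hlt j)
    · rw [Finset.card_image_of_injOn hinj]
  have hA : ∀ j, num A ((v + 1) * 2 ^ n + φ j - 1) = A (str v ++ bitsOf n j) := by
    intro j
    have h1 : idx (str v ++ bitsOf n j) = (v + 1) * 2 ^ n + φ j - 1 := by
      rw [idx_eq, sval_app, sval_str, length_bitsOf]
    unfold num
    rw [← h1, str_idx]
  apply Finset.card_bij (fun j _ => φ j)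
  · intro j hj
    rw [Finset.mem_filter, Finset.mem_range] at hj ⊢
    exact ⟨hlt j, by rw [hA]; exact hj.2⟩
  · intro j hj j' hj' h
    rw [Finset.mem_filter] at hj hj'
    exact hinj (Finset.mem_coe.2 hj.1) (Finset.mem_coe.2 hj'.1) h
  · intro k hk
    rw [Finset.mem_filter] at hk
    have hk1 : k ∈ (Finset.range (2 ^ n)).image φ := by rw [himg]; exact hk.1
    obtain ⟨j, hj, hjk⟩ := Finset.mem_image.1 hk1
    refine ⟨j, ?_, hjk⟩
    rw [Finset.mem_filter]
    refine ⟨hj, ?_⟩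
    rw [← hA, hjk]
    exact hk.2

theorem task : S_PARL := by
  intro A
  refine ⟨fun v => 1 - PF (num A) (pw (v 0)) (v 0), ?_, ?_⟩
  · exact neg (of_eq (comp2 (g := fun v => PF (num A) (v 0) (v 1)) PF0 pwE (E2.proj 0))
      (fun _ => rfl))
  · intro v
    have h : str (v 0) ∈ parLang A ↔ PF (num A) (pw (v 0)) (v 0) = 1 := by
      have h1 : str (v 0) ∈ parLang A ↔ Odd ((Finset.range (2 ^ (str (v 0)).length)).filter
        (fun j => A (str (v 0) ++ bitsOf (str (v 0)).length j) = true)).card := Iff.rfl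
      rw [h1, card_eq, Nat.odd_iff]
      rfl
    have h2 : PF (num A) (pw (v 0)) (v 0) < 2 := Nat.mod_lt _ (by norm_num)
    constructor
    · intro hp
      have := h.1 hp
      simp only
      omega
    · intro hp
      have : PF (num A) (pw (v 0)) (v 0) ≠ 1 := fun hh => hp (h.2 hh)
      simp only
      omega

end Pool.Agent.W975.LS.PARL
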